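import Mathlib

/-! The one-point compactification of the space of ultrafilters that have a member of size
below aleph_omega. -/

open Set Topology Cardinal

namespace Pool.Agent.WL37N

noncomputable def kap (n : ℕ) : Cardinal.{0} := Cardinal.aleph (n : Ordinal)

theorem kap_lt (n : ℕ) : kap n < kap (n + 1) :=
  Cardinal.aleph_lt_aleph.2 (by exact_mod_cast Nat.lt_succ_self n)

theorem kap_mono : Monotone kap := monotone_nat_of_le_succ fun n => (kap_lt n).le

theorem kap_inf (n : ℕ) : ℵ₀ ≤ kap n := Cardinal.aleph0_le_aleph _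

variable (D : Type)

/-- ultrafilters with a small member -/
def Small (u : Ultrafilter D) : Prop := ∃ n, ∃ S ∈ u, #S ≤ kap n

abbrev Y : Type := {u : Ultrafilter D // Small D u}

theorem isOpen_small : IsOpen {u | Small D u} := by
  refine isOpen_iff_mem_nhds.2 ?_
  rintro u ⟨n, S, hS, hn⟩
  exact Filter.mem_of_superset ((ultrafilter_isOpen_basic S).mem_nhds hS)
    fun v hv => ⟨n, S, hv, hn⟩

instance : LocallyCompactSpace (Y D) := (isOpen_small D).locallyCompactSpace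

variable {D}

def bas (S : Set D) : Set (Y D) := {u | S ∈ u.1}

theorem isOpen_bas (S : Set D) : IsOpen (bas S) :=
  (ultrafilter_isOpen_basic S).preimage continuous_subtype_val

theorem isClosed_bas (S : Set D) : IsClosed (bas S) :=
  (ultrafilter_isClosed_basic S).preimage continuous_subtype_val

theorem isCompact_bas {S : Set D} {n : ℕ} (h : #S ≤ kap n) : IsCompact (bas S) := by
  rw [Subtype.isCompact_iff]
  have : Subtype.val '' bas S = {u : Ultrafilter D | S ∈ u} := by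
    ext u
    exact ⟨by rintro ⟨v, hv, rfl⟩; exact hv, fun hu => ⟨⟨u, n, S, hu, h⟩, hu, rfl⟩⟩
  rw [this]
  exact (ultrafilter_isClosed_basic S).isCompact

theorem mk_union_le' {S T : Set D} {n : ℕ} (hS : #S ≤ kap n) (hT : #T ≤ kap n) :
    #(↥(S ∪ T)) ≤ kap n :=
  (mk_union_le _ _).trans ((add_le_add hS hT).trans (add_eq_self (kap_inf n)).le)

theorem compact_subset {C : Set (Y D)} (hC : IsCompact C) :
    ∃ n, ∃ S : Set D, #S ≤ kap n ∧ C ⊆ bas S := by
  refine hC.induction_on (p := fun C => ∃ n, ∃ S : Set D, #S ≤ kap n ∧ C ⊆ bas S)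
    ⟨0, ∅, by simp, empty_subset _⟩ ?_ ?_ ?_
  · rintro s t hst ⟨n, S, h1, h2⟩
    exact ⟨n, S, h1, hst.trans h2⟩
  · rintro s t ⟨n, S, h1, h2⟩ ⟨m, T, h3, h4⟩
    refine ⟨max n m, S ∪ T, mk_union_le' (h1.trans (kap_mono (le_max_left _ _)))
      (h3.trans (kap_mono (le_max_right _ _))), ?_⟩
    rintro u (hu | hu)
    · exact Filter.mem_of_superset (h2 hu) subset_union_left
    · exact Filter.mem_of_superset (h4 hu) subset_union_right
  · intro u _
    obtain ⟨n, S, hS, hn⟩ := u.2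
    exact ⟨bas S, mem_nhdsWithin_of_mem_nhds ((isOpen_bas S).mem_nhds hS), n, S, hn, Subset.rfl⟩

theorem mk_sUnion_le' {F : Set (Set D)} {k : Cardinal} (hk : ℵ₀ ≤ k) (hF : #F ≤ k)
    (h : ∀ S ∈ F, #S ≤ k) : #(↥(⋃₀ F)) ≤ k := by
  refine (mk_sUnion_le F).trans ((mul_le_mul' hF (ciSup_le' fun S : F => h S.1 S.2)).trans ?_)
  exact (mul_eq_self hk).le

theorem isCompact_of_bounded {A : Set (Y D)} (hA : IsClosed A) {n : ℕ}
    (hn : ∀ u ∈ A, ∃ S ∈ u.1, #S ≤ kap n) : IsCompact A := by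
  by_contra hnc
  have hR : ∀ R : Set D, #R ≤ kap n → ∃ u ∈ A, R ∉ u.1 := by
    intro R hRn
    by_contra hc
    push Not at hc
    exact hnc ((isCompact_bas hRn).of_isClosed_subset hA hc)
  obtain ⟨F, hF⟩ := zorn_subset
    {F : Set (Set D) | (∀ S ∈ F, #S ≤ kap n ∧ ∃ u ∈ A, S ∈ u.1) ∧ F.Pairwise Disjoint} (by
      intro c hc hch
      refine ⟨⋃₀ c, ⟨?_, ?_⟩, fun s hs => subset_sUnion_of_mem hs⟩
      · rintro S ⟨s, hs, hS⟩
        exact (hc hs).1 S hS
      · exact (pairwise_sUnion hch.directedOn).2 fun s hs => (hc hs).2)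
  have hbig : kap n < #F := by
    by_contra hle
    obtain ⟨u, hu, hRu⟩ := hR (⋃₀ F)
      (mk_sUnion_le' (kap_inf n) (not_lt.1 hle) fun S hS => (hF.prop.1 S hS).1)
    obtain ⟨S, hS, hSn⟩ := hn u hu
    have hmem : S \ ⋃₀ F ∈ u.1 := Filter.inter_mem hS (Ultrafilter.compl_mem_iff_notMem.2 hRu)
    have hins : insert (S \ ⋃₀ F) F ⊆ F := by
      refine hF.le_of_ge (y := insert (S \ ⋃₀ F) F) ⟨?_, ?_⟩ (subset_insert _ _)
      · rintro T (rfl | hT)
        · exact ⟨(mk_le_mk_of_subset sdiff_subset).trans hSn, u, hu, hmem⟩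
        · exact hF.prop.1 T hT
      · refine hF.prop.2.insert fun T hT _ => ?_
        have : Disjoint (S \ ⋃₀ F) T :=
          disjoint_left.2 fun x hx hxT => hx.2 ⟨T, hT, hxT⟩
        exact ⟨this, this.symm⟩
    obtain ⟨x, hx⟩ := Ultrafilter.nonempty_of_mem hmem
    exact hx.2 ⟨_, hins (mem_insert _ _), hx⟩
  obtain ⟨G, hGF, hG⟩ := le_mk_iff_exists_subset.1 (Order.succ_le_of_lt hbig)
  have hGle : #G ≤ kap (n + 1) := hG ▸ Order.succ_le_of_lt (kap_lt n)
  have hS : #(↥(⋃₀ G)) ≤ kap (n + 1) := mk_sUnion_le' (kap_inf _) hGle fun S hS =>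
    (hF.prop.1 S (hGF hS)).1.trans (kap_lt n).le
  let Z : {R : Set D // #R ≤ kap n} → Set (Y D) := fun R => A ∩ bas (⋃₀ G) ∩ (bas R.1)ᶜ
  have hZc : ∀ R, IsClosed (Z R) := fun R =>
    (hA.inter (isClosed_bas _)).inter (isOpen_bas _).isClosed_compl
  have hZn : ∀ R, (Z R).Nonempty := by
    intro R
    by_contra hc
    have hx : ∀ T : G, ∃ x : R.1, x.1 ∈ T.1 := by
      intro T
      obtain ⟨u, hu, hT⟩ := (hF.prop.1 T.1 (hGF T.2)).2
      have hRu : R.1 ∈ u.1 := by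
        by_contra h
        exact hc ⟨u, ⟨hu, Filter.mem_of_superset hT (subset_sUnion_of_mem T.2)⟩, h⟩
      obtain ⟨x, hx1, hx2⟩ := Ultrafilter.nonempty_of_mem (Filter.inter_mem hRu hT)
      exact ⟨⟨x, hx1⟩, hx2⟩
    choose f hf using hx
    have hinj : Function.Injective f := by
      intro T T' h
      by_contra hne
      exact disjoint_left.1 (hF.prop.2 (hGF T.2) (hGF T'.2) fun e => hne (Subtype.ext e))
        (hf T) (h ▸ hf T')
    have := (mk_le_of_injective hinj).trans R.2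
    rw [hG] at this
    exact absurd this (not_le.2 (Order.lt_succ _))
  have : Nonempty {R : Set D // #R ≤ kap n} := ⟨⟨∅, by simp⟩⟩
  have hdir : Directed (· ⊇ ·) Z := fun R R' =>
    ⟨⟨R.1 ∪ R'.1, mk_union_le' R.2 R'.2⟩,
      fun u hu => ⟨hu.1, fun h => hu.2 (Filter.mem_of_superset h subset_union_left)⟩,
      fun u hu => ⟨hu.1, fun h => hu.2 (Filter.mem_of_superset h subset_union_right)⟩⟩
  obtain ⟨v, hv⟩ := IsCompact.nonempty_iInter_of_directed_nonempty_isCompact_isClosed Z hdir hZn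
    (fun R => (isCompact_bas hS).of_isClosed_subset (hZc R) fun u hu => hu.1.2) hZc
  rw [mem_iInter] at hv
  obtain ⟨S, hSv, hSn⟩ := hn v (hv ⟨∅, by simp⟩).1.1
  exact (hv ⟨S, hSn⟩).2 hSv

/-- the weak base at the added point -/
def V (n : ℕ) : Set (OnePoint (Y D)) :=
  {x | ∀ u : Y D, x = (u : OnePoint (Y D)) → ∀ S ∈ u.1, kap n < #S}

theorem infty_mem_V (n : ℕ) : (OnePoint.infty : OnePoint (Y D)) ∈ V n :=
  fun u hu => absurd hu (OnePoint.infty_ne_coe u)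

theorem V_anti (n : ℕ) : (V (n + 1) : Set (OnePoint (Y D))) ⊆ V n :=
  fun _ hx u hu S hS => (kap_lt n).trans (hx u hu S hS)

theorem open_infty {O : Set (OnePoint (Y D))} (hO : IsOpen O) (h : OnePoint.infty ∈ O) :
    ∃ n, ∃ S : Set D, #S ≤ kap n ∧ ∀ u : Y D, S ∉ u.1 → (u : OnePoint (Y D)) ∈ O := by
  obtain ⟨n, S, hS, hC⟩ := compact_subset ((OnePoint.isOpen_iff_of_mem h).1 hO).2
  refine ⟨n, S, hS, fun u hu => ?_⟩
  by_contra hc
  exact hu (hC hc)

theorem isOpen_iff (O : Set (OnePoint (Y D))) : IsOpen O ↔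
    (∀ x ∈ O, x ≠ OnePoint.infty → O ∈ 𝓝 x) ∧ (OnePoint.infty ∈ O → ∃ n, V n ⊆ O) := by
  constructor
  · intro hO
    refine ⟨fun x hx _ => hO.mem_nhds hx, fun h => ?_⟩
    obtain ⟨n, S, hS, hu⟩ := open_infty hO h
    refine ⟨n, fun x hx => ?_⟩
    induction x using OnePoint.rec with
    | infty => exact h
    | coe u => exact hu u fun hSu => absurd (hx u rfl S hSu) (not_lt.2 hS)
  · rintro ⟨h1, h2⟩
    have hop : IsOpen ((↑) ⁻¹' O : Set (Y D)) := isOpen_iff_mem_nhds.2 fun u hu =>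
      OnePoint.continuous_coe.continuousAt.preimage_mem_nhds
        (h1 _ hu (OnePoint.coe_ne_infty u))
    by_cases h : OnePoint.infty ∈ O
    · obtain ⟨n, hn⟩ := h2 h
      refine (OnePoint.isOpen_iff_of_mem h).2 ⟨hop.isClosed_compl,
        isCompact_of_bounded hop.isClosed_compl (n := n) fun u hu => ?_⟩
      by_contra hc
      push Not at hc
      refine hu (hn fun w hw S hS => hc S ?_)
      rwa [OnePoint.coe_eq_coe.1 hw]
    · exact (OnePoint.isOpen_iff_of_notMem h).2 hop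

theorem small_base (x : OnePoint (Y D)) (hx : x ≠ OnePoint.infty) :
    ∃ (n : ℕ) (B : Set (Set (OnePoint (Y D)))), #B ≤ 2 ^ kap n ∧ (∀ b ∈ B, b ∈ 𝓝 x) ∧
      ∀ O ∈ 𝓝 x, ∃ b ∈ B, b ⊆ O := by
  induction x using OnePoint.rec with
  | infty => exact absurd rfl hx
  | coe u =>
    obtain ⟨n, S, hS, hn⟩ := u.2
    refine ⟨n, (fun R : Set D => ((↑) '' bas R : Set (OnePoint (Y D)))) ''
      {R | R ⊆ S ∧ R ∈ u.1}, ?_, ?_, ?_⟩
    · refine mk_image_le.trans ((mk_le_mk_of_subset (t := 𝒫 S) fun R hR => hR.1).trans ?_)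
      rw [mk_powerset]
      exact power_le_power_left two_ne_zero hn
    · rintro _ ⟨R, hR, rfl⟩
      exact (OnePoint.isOpenMap_coe _ (isOpen_bas R)).mem_nhds ⟨u, hR.2, rfl⟩
    · intro O hO
      obtain ⟨t, ht, hto⟩ := (mem_nhds_induced _ _ _).1
        (OnePoint.continuous_coe.continuousAt.preimage_mem_nhds hO)
      obtain ⟨_, ⟨R, rfl⟩, hRu, hRt⟩ := ultrafilterBasis_is_basis.mem_nhds_iff.1 ht
      refine ⟨_, ⟨R ∩ S, ⟨inter_subset_right, Filter.inter_mem hRu hS⟩, rfl⟩, ?_⟩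
      rintro _ ⟨v, hv, rfl⟩
      exact hto (hRt (Filter.mem_of_superset hv inter_subset_left))

theorem sInter_ne {l : Cardinal.{0}} (hl : ∀ n, kap n ≤ l) (hD : l < #D)
    (T : Set (Set (OnePoint (Y D)))) (hT : #T ≤ l) (hTo : ∀ t ∈ T, IsOpen t) :
    ⋂₀ T ≠ {OnePoint.infty} := by
  intro he
  have h : ∀ t : T, ∃ S : Set D, #S ≤ l ∧ ∀ u : Y D, S ∉ u.1 → (u : OnePoint (Y D)) ∈ t.1 := by
    intro t
    obtain ⟨n, S, hS, hu⟩ := open_infty (hTo _ t.2)
      (mem_sInter.1 (he ▸ mem_singleton _) _ t.2)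
    exact ⟨S, hS.trans (hl n), hu⟩
  choose S hS hu using h
  have hU : #(↥(⋃ t, S t)) ≤ l := (mk_iUnion_le _).trans
    ((mul_le_mul' hT (ciSup_le' hS)).trans (mul_eq_self ((kap_inf 0).trans (hl 0))).le)
  obtain ⟨d, hd⟩ : ∃ d, d ∉ ⋃ t, S t := by
    by_contra hc
    push Not at hc
    rw [eq_univ_of_forall hc, mk_univ] at hU
    exact absurd hU (not_le.2 hD)
  let u : Y D := ⟨pure d, 0, {d}, by simp, by
    rw [mk_singleton]; exact one_le_aleph0.trans (kap_inf 0)⟩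
  have : (u : OnePoint (Y D)) ∈ ⋂₀ T := mem_sInter.2 fun t ht =>
    hu ⟨t, ht⟩ u fun h => hd (mem_iUnion.2 ⟨⟨t, ht⟩, by simpa [u] using h⟩)
  rw [he] at this
  exact OnePoint.coe_ne_infty u this

theorem main (l : Cardinal.{0}) :
    ∃ (X : Type) (_ : TopologicalSpace X), CompactSpace X ∧ T2Space X ∧
    ∃ (p : X) (V : ℕ → Set X), (∀ n, p ∈ V n) ∧ (∀ n, V (n + 1) ⊆ V n) ∧
      (∀ O : Set X, IsOpen O ↔ (∀ x ∈ O, x ≠ p → O ∈ nhds x) ∧ (p ∈ O → ∃ n, V n ⊆ O)) ∧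
      (∀ x : X, x ≠ p → ∃ (n : ℕ) (B : Set (Set X)),
        Cardinal.mk B ≤ 2 ^ Cardinal.aleph (n : Ordinal) ∧ (∀ b ∈ B, b ∈ nhds x) ∧
          ∀ O ∈ nhds x, ∃ b ∈ B, b ⊆ O) ∧
      ∀ T : Set (Set X), Cardinal.mk T ≤ l → (∀ t ∈ T, IsOpen t) → ⋂₀ T ≠ {p} := by
  let m : Cardinal.{0} := max l (⨆ n, kap n)
  refine ⟨OnePoint (Y (Order.succ m).out), inferInstance, inferInstance, inferInstance,
    OnePoint.infty, V, infty_mem_V, V_anti, isOpen_iff, small_base, fun T hT =>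
      sInter_ne (l := m) (fun n => le_max_of_le_right
        (le_ciSup Cardinal.bddAbove_of_small n)) ?_ T (le_max_of_le_left hT)⟩
  rw [mk_out]
  exact Order.lt_succ m

end Pool.Agent.WL37N
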